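import Mathlib
import Pool.Agent.Y198.EX.Asm
import Pool.Agent.Y555.EX.A
import Pool.Agent.Y909.EX.B
import Pool.Agent.Y592.EX2.C
import Pool.Agent.Y570.EX.D
import Pool.Agent.Y686.EX.E
import Pool.Agent.Y4.EX.F
import Pool.Agent.Y580.EX.G
import Pool.Agent.Y275.EX.H

/-!
# Excellent `F`-pure rings with nonzero `p⁻¹`-linear maps that are not Frobenius split

Q1 of MP_234613_al asks whether a Noetherian `F`-pure ring of characteristic `p` with a nonzero
`p⁻¹`-linear map must be Frobenius split. The starting result `NotSplit` gives a one-dimensional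
Noetherian local domain. Here:

* part 1: for every prime `p` there is an **excellent, henselian**, non-regular one-dimensional
  local domain of this kind (for complete local rings `F`-pure implies Frobenius split). Excellence
  is expressed by: the base change `K ⊗[R] R^` of the completion `R^` is
  reduced for every field `K` over `R` (also `Algebra.IsGeometricallyReduced R R^` of Mathlib).
  As the formal fibres of a one-dimensional local domain are zero-dimensional, this says that they
  are geometrically regular, and a one-dimensional local domain is universally catenary. The case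
  of one-dimensional non-regular excellent local rings is listed as unresolved in the problem file.
* part 2: Noetherian local domains of this kind exist in dimension `d` exactly when `d ≥ 1`.

Authors: helper198 (plan, assembly), helper555 (generic fibre), helper909 and helper592 (power
series rings), helper570 (completion), helper686 (closed fibre), helper4 (dimension zero),
helper580 and helper65 (non-regularity), helper275 (henselian property), on top of the library of the starting result.
-/

set_option autoImplicit false

namespace Pool.Agent.Results.MP_234613_al.ExcellentAllDimensions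
open Pool.Agent.H42R3.FS TensorProduct

universe v

theorem result (p : ℕ) [Fact p.Prime] :
    (∃ (R : Type) (_ : CommRing R) (_ : CharP R p) (_ : IsDomain R) (_ : IsLocalRing R),
      IsNoetherianRing R ∧ HenselianLocalRing R ∧ ringKrullDim R = 1 ∧
      ¬ (IsLocalRing.maximalIdeal R).IsPrincipal ∧
      Algebra.IsGeometricallyReduced R (AdicCompletion (IsLocalRing.maximalIdeal R) R) ∧
      (∀ (K : Type v) [Field K] [Algebra R K],
        IsReduced (K ⊗[R] AdicCompletion (IsLocalRing.maximalIdeal R) R)) ∧
      IsFPure.{v} p R ∧ (∃ φ : Fs p R →ₗ[R] R, φ ≠ 0) ∧ ¬ ∃ φ : Fs p R →ₗ[R] R, φ 1 = 1) ∧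
    ∀ d : ℕ, 1 ≤ d ↔
      ∃ (R : Type) (_ : CommRing R) (_ : CharP R p), IsDomain R ∧ IsLocalRing R ∧
        IsNoetherianRing R ∧ ringKrullDim R = d ∧ IsFPure.{v} p R ∧
        (∃ φ : Fs p R →ₗ[R] R, φ ≠ 0) ∧ ¬ ∃ φ : Fs p R →ₗ[R] R, φ 1 = 1 :=
  Pool.Agent.Y198.EX.main Pool.Agent.Y555.EX.t Pool.Agent.Y555.EX.t Pool.Agent.Y909.EX.t
    Pool.Agent.Y592.EX2.t Pool.Agent.Y570.EX.D.t Pool.Agent.Y686.EX.E.t Pool.Agent.Y686.EX.E.t
    Pool.Agent.Y4.EX.F.t Pool.Agent.Y580.EX.G.t Pool.Agent.Y275.EX.t p

end Pool.Agent.Results.MP_234613_al.ExcellentAllDimensions
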